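import Pool.Agent.H635.Dia.Guess

/-!
# The line, which is a minimal Aronszajn line
-/

set_option autoImplicit false

namespace Pool.Agent.H635.Dia

open Ordinal Set

/-- The function on `W` denoted by a word. -/
noncomputable def E (G : W → Set Word) (w : Word) : W → ℕ := fun x => ev (blk G) w (ρ x)

/-- The functions denoted by words. -/
def Nd (G : W → Set Word) : Set (W → ℕ) := range (E G)

open Classical in
/-- Cut off a function. -/
noncomputable def tr (x : W) (f : W → ℕ) : W → ℕ := fun y => if y < x then f y else 0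

variable {G : W → Set Word}

theorem E_ne_zero (w : Word) (x : W) : E G w x ≠ 0 ↔ ρ x < len w := ev_blk_ne_zero w _

theorem tr_of_lt {x y : W} (h : y < x) (f : W → ℕ) : tr x f y = f y := by
  simp [tr, h]

theorem tr_of_le {x y : W} (h : x ≤ y) (f : W → ℕ) : tr x f y = 0 := by
  simp [tr, not_lt.2 h]

theorem E_ini {w w' : Word} (h : Ini G w' w) (x : W) (hx : ρ x = len w') : E G w' = tr x (E G w) := by
  funext y
  by_cases hy : y < x
  · rw [tr_of_lt hy]
    exact h.2 _ (by rw [← hx]; exact ρ_lt_ρ.2 hy)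
  · rw [not_lt] at hy
    rw [tr_of_le hy]
    by_contra h1
    have h2 := (E_ne_zero (G := G) w' y).1 h1
    rw [← hx, ρ_lt_ρ] at h2
    exact absurd h2 (not_lt.2 hy)

theorem tr_mem {f : W → ℕ} (hf : f ∈ Nd G) (x : W) : tr x f ∈ Nd G := by
  obtain ⟨w, rfl⟩ := hf
  rcases le_total (ρ x) (len w) with h | h
  · obtain ⟨w', h1, h2⟩ := exists_ini (G := G) h
    exact ⟨w', E_ini h2 x h1.symm⟩
  · refine ⟨w, ?_⟩
    funext y
    by_cases hy : y < x
    · rw [tr_of_lt hy]
    · rw [tr_of_le (not_lt.1 hy)]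
      by_contra h1
      have h2 := (E_ne_zero (G := G) w y).1 h1
      exact hy (ρ_lt_ρ.1 (h2.trans_le h))

/-- Converse of `E_ini`. -/
theorem ini_of_E {w w' : Word} {x : W} (h : E G w' = tr x (E G w)) (hx : len w' ≤ ρ x) :
    Ini G w' w := by
  have h1 : ∀ ξ < len w', ev (blk G) w' ξ = ev (blk G) w ξ := by
    intro ξ hξ
    obtain ⟨y, rfl⟩ := exists_ρ (hξ.trans (len_lt w'))
    have h2 := congrFun h y
    rw [tr_of_lt (ρ_lt_ρ.1 (hξ.trans_le hx))] at h2
    exact h2
  refine ⟨?_, h1⟩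
  refine le_of_forall_lt fun ξ hξ => ?_
  rw [← ev_blk_ne_zero (G := G), ← h1 ξ hξ, ev_blk_ne_zero]
  exact hξ

theorem exists_len_eq (w : Word) : ∃ x, ρ x = len w := exists_ρ (len_lt w)

theorem tr_E_self {w : Word} {x : W} (h : len w ≤ ρ x) : tr x (E G w) = E G w := by
  funext y
  by_cases hy : y < x
  · rw [tr_of_lt hy]
  · rw [tr_of_le (not_lt.1 hy)]
    by_contra h1
    have h2 := (E_ne_zero (G := G) w y).1 (Ne.symm h1)
    exact hy (ρ_lt_ρ.1 (h2.trans_le h))

theorem exists_tr_self {f : W → ℕ} (hf : f ∈ Nd G) : ∃ x, ∀ y, x ≤ y → tr y f = f := by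
  obtain ⟨w, rfl⟩ := hf
  obtain ⟨x, hx⟩ := exists_len_eq w
  exact ⟨x, fun y hy => tr_E_self (hx.ge.trans (ρ_le_ρ.2 hy))⟩

/-- Only countably many nodes are supported below `x`. -/
theorem countable_Nd (x : W) : {f | f ∈ Nd G ∧ ∀ y, x ≤ y → f y = 0}.Countable := by
  obtain ⟨δ, hδ⟩ := exists_bound (countable_singleton x)
  have hxδ : x < δ := hδ x rfl
  refine ((countable_Words δ).image (E G)).mono ?_
  rintro _ ⟨⟨w, rfl⟩, h⟩
  have h1 : len w ≤ ρ x := by
    by_contra h2
    rw [not_le] at h2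
    exact (E_ne_zero (G := G) w x).2 h2 (h x le_rfl)
  by_cases hw : w ∈ Words δ
  · exact ⟨w, hw, rfl⟩
  · exfalso
    obtain ⟨w₁, _, q, w₂, rfl, hq⟩ := exists_first hw
    rw [len_append] at h1
    change len w₁ + (ω ^ ρ q.1 + len w₂) ≤ _ at h1
    have h2 : ω ^ ρ q.1 ≤ ρ x := (le_self_add.trans le_add_self).trans h1
    have h3 : ρ q.1 ≤ ω ^ ρ q.1 := Ordinal.right_le_opow _ one_lt_omega0
    have h4 : ρ x < ρ q.1 := ρ_lt_ρ.2 (hxδ.trans_le hq)
    exact absurd (h3.trans h2) (not_le.2 h4)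

/-- `f` precedes `g` in the lexicographic order. -/
def Lt (f g : W → ℕ) : Prop := ∃ x, (∀ y < x, f y = g y) ∧ f x < g x

theorem toLex_lt {f g : W → ℕ} : toLex f < toLex g ↔ Lt f g := Iff.rfl

theorem tr_le_tr {f g : W → ℕ} (h : toLex f ≤ toLex g) (x : W) :
    toLex (tr x f) ≤ toLex (tr x g) := by
  rcases h.eq_or_lt with h | h
  · rw [toLex.injective h]
  · obtain ⟨z, h1, h2⟩ := toLex_lt.1 h
    by_cases hz : z < x
    · apply le_of_lt
      refine toLex_lt.2 ⟨z, fun y hy => ?_, ?_⟩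
      · rw [tr_of_lt (hy.trans hz), tr_of_lt (hy.trans hz), h1 y hy]
      · rwa [tr_of_lt hz, tr_of_lt hz]
    · apply le_of_eq
      congr 1
      funext y
      by_cases hy : y < x
      · rw [tr_of_lt hy, tr_of_lt hy, h1 y (hy.trans_le (not_lt.1 hz))]
      · rw [tr_of_le (not_lt.1 hy), tr_of_le (not_lt.1 hy)]

theorem tr_le_self (f : W → ℕ) (x : W) : toLex (tr x f) ≤ toLex f := by
  by_contra h
  rw [not_le] at h
  obtain ⟨z, h1, h2⟩ := toLex_lt.1 h
  by_cases hz : z < x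
  · rw [tr_of_lt hz] at h2
    exact lt_irrefl _ h2
  · rw [tr_of_le (not_lt.1 hz)] at h2
    exact Nat.not_lt_zero _ h2

/-- A monotone or antitone map from `W` to a set with countable range is eventually constant. -/
theorem eventually_const {C : Type} [LinearOrder C] (m : W → C) (hm : Monotone m ∨ Antitone m)
    (hc : (range m).Countable) : ∃ z₀ c, ∀ z, z₀ ≤ z → m z = c := by
  have h1 : ∃ c, ¬ (m ⁻¹' {c}).Countable := by
    by_contra h
    push Not at h
    have h2 : (univ : Set W) ⊆ ⋃ c ∈ range m, m ⁻¹' {c} := fun z _ =>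
      mem_biUnion (mem_range_self z) rfl
    exact not_countable_univ ((hc.biUnion fun c _ => h c).mono h2)
  obtain ⟨c, hc2⟩ := h1
  have hne : (m ⁻¹' {c}).Nonempty := by
    by_contra h
    rw [not_nonempty_iff_eq_empty] at h
    rw [h] at hc2
    exact hc2 countable_empty
  obtain ⟨z₀, hz₀⟩ := hne
  refine ⟨z₀, c, fun z hz => ?_⟩
  have h3 : ∃ z' ∈ m ⁻¹' {c}, z ≤ z' := by
    by_contra h
    push Not at h
    exact hc2 ((countable_Iio z).mono h)
  obtain ⟨z', h4, h5⟩ := h3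
  have h4' : m z' = c := h4
  have hz₀' : m z₀ = c := hz₀
  rcases hm with hm | hm
  · apply le_antisymm
    · rw [← h4']
      exact hm h5
    · rw [← hz₀']
      exact hm hz
  · apply le_antisymm
    · rw [← hz₀']
      exact hm hz
    · rw [← h4']
      exact hm h5

/-- The set `G δ` guesses sets of words. -/
def Guesses (G : W → Set Word) : Prop := ∀ (S : Set Word) (f : Word → ℕ → Word),
    ∃ δ, (∃ γ, γ < δ) ∧ (∀ w ∈ Words δ, (w ∈ S ↔ w ∈ G δ)) ∧
      ∀ w ∈ Words δ, ∀ n, f w n ∈ Words δ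

/-- There is no cofinal branch. -/
theorem no_branch (hG : Guesses G) (B : W → ℕ) (h0 : ∀ x, B x ≠ 0) (h : ∀ x, tr x B ∈ Nd G) :
    False := by
  obtain ⟨t, n, hv⟩ := capture hG {w | ∃ x, E G w = tr x B} (by
      rintro w ⟨x, hx⟩ w' hw'
      obtain ⟨y, hy⟩ := exists_len_eq w'
      refine ⟨y, ?_⟩
      rw [E_ini hw' y hy, hx]
      funext z
      by_cases hz : z < y
      · rw [tr_of_lt hz, tr_of_lt hz]
        have h1 : ρ z < len w' := by rw [← hy]; exact ρ_lt_ρ.2 hz
        have h2 : E G w z ≠ 0 := (E_ne_zero (G := G) w z).2 (h1.trans_le hw'.1)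
        rw [hx] at h2
        by_cases hzx : z < x
        · rw [tr_of_lt hzx]
        · exact absurd (tr_of_le (not_lt.1 hzx) B) h2
      · rw [tr_of_le (not_lt.1 hz), tr_of_le (not_lt.1 hz)])
    (by
      intro x
      obtain ⟨w, hw⟩ := h x
      refine ⟨w, ⟨x, hw⟩, ?_⟩
      by_contra hlt
      rw [not_le] at hlt
      obtain ⟨y, hy⟩ := exists_len_eq w
      have hyx : y < x := by rw [← ρ_lt_ρ, hy]; exact hlt
      have h1 : E G w y = 0 := by
        by_contra h2
        have h3 := (E_ne_zero (G := G) w y).1 h2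
        rw [hy] at h3
        exact lt_irrefl _ h3
      rw [hw, tr_of_lt hyx] at h1
      exact h0 y h1)
  obtain ⟨y, hy⟩ := exists_len_eq t
  have key : ∀ m, B y = ev (blk G) [(y, m)] 0 + n := by
    intro m
    obtain ⟨x, hx⟩ := hv [(y, m)]
    have h1 : (0 : Ordinal.{0}) < len [(y, m)] := by
      change 0 < ω ^ ρ y + 0
      rw [add_zero]
      exact Ordinal.opow_pos _ omega0_pos
    have h2 : E G (t ++ sh n [(y, m)]) y = ev (blk G) [(y, m)] 0 + n := by
      unfold E
      rw [ev_append, if_neg (by rw [hy]; exact lt_irrefl _), hy, Ordinal.sub_self, ev_sh]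
      unfold sft
      rw [if_neg ((ev_blk_ne_zero (G := G) _ _).2 h1)]
    have h3 : E G (t ++ sh n [(y, m)]) y ≠ 0 := by
      rw [E_ne_zero, len_append, len_sh, hy]
      exact lt_add_of_pos_right _ h1
    have h4 := congrFun hx y
    have h5 : y < x := by
      by_contra h6
      rw [tr_of_le (not_lt.1 h6)] at h4
      exact h3 h4
    rw [tr_of_lt h5, h2] at h4
    exact h4.symm
  have h1 := key 0
  have h2 := key 1
  have h3 : ∀ m, ev (blk G) [(y, m)] 0 = blk G y 0 + m := by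
    intro m
    have h4 : (0 : Ordinal.{0}) < ω ^ ρ y := Ordinal.opow_pos _ omega0_pos
    change cat (ω ^ ρ y) (sft m (blk G y)) (fun _ => 0) 0 = _
    simp only [cat, h4, if_true, sft]
    rw [if_neg (((blk_isB G y).1 0).2 h4)]
  rw [h1, h3, h3] at h2
  omega

/-- There is no uncountable monotone or antitone sequence. -/
theorem no_omega1 (hG : Guesses G) (φ : W → Lex (W → ℕ)) (hinj : Function.Injective φ)
    (hφ : ∀ z, ofLex (φ z) ∈ Nd G) (hm : Monotone φ ∨ Antitone φ) : False := by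
  have hcut : ∀ x, ∃ z₀ c, ∀ z, z₀ ≤ z → toLex (tr x (ofLex (φ z))) = c := by
    intro x
    apply eventually_const (fun z => toLex (tr x (ofLex (φ z))))
    · rcases hm with hm | hm
      · left
        intro z z' hz
        exact tr_le_tr (hm hz) x
      · right
        intro z z' hz
        exact tr_le_tr (hm hz) x
    · refine ((countable_Nd (G := G) x).image toLex).mono ?_
      rintro _ ⟨z, rfl⟩
      exact ⟨_, ⟨tr_mem (hφ z) x, fun y hy => tr_of_le hy _⟩, rfl⟩
  choose z₀ c hc using hcut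
  have hs : ∀ y : W, ∃ x, y < x := fun y => by
    obtain ⟨b, hb⟩ := exists_bound (countable_singleton y)
    exact ⟨b, hb y rfl⟩
  choose s hs using hs
  let B : W → ℕ := fun y => ofLex (c (s y)) y
  have hB : ∀ x, tr x B = ofLex (c x) := by
    intro x
    funext y
    have h1 := hc x (max (z₀ x) (z₀ (s y))) (le_max_left _ _)
    have h2 := hc (s y) (max (z₀ x) (z₀ (s y))) (le_max_right _ _)
    by_cases hy : y < x
    · rw [tr_of_lt hy]
      change ofLex (c (s y)) y = ofLex (c x) y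
      rw [← h1, ← h2]
      change tr (s y) _ y = tr x _ y
      rw [tr_of_lt hy, tr_of_lt (hs y)]
    · rw [tr_of_le (not_lt.1 hy), ← h1]
      exact (tr_of_le (not_lt.1 hy) _).symm
  apply no_branch hG B
  · intro y hy
    obtain ⟨z, hz⟩ : ∃ z, max (z₀ y) (z₀ (s y)) < z := ⟨_, hs _⟩
    have hcon : ∀ z', max (z₀ y) (z₀ (s y)) ≤ z' → ofLex (φ z') = ofLex (c y) := by
      intro z' hz'
      have h1 := hc y z' ((le_max_left _ _).trans hz')
      have h2 := hc (s y) z' ((le_max_right _ _).trans hz')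
      rw [← h1]
      obtain ⟨w, hw⟩ := hφ z'
      have h3 : ofLex (φ z') y = 0 := by
        change ofLex (c (s y)) y = 0 at hy
        rw [← h2] at hy
        change tr (s y) _ y = 0 at hy
        rwa [tr_of_lt (hs y)] at hy
      change _ = tr y (ofLex (φ z'))
      rw [← hw] at h3 ⊢
      rw [tr_E_self]
      by_contra h4
      exact (E_ne_zero (G := G) w y).2 (not_le.1 h4) h3
    have h3 := hcon _ le_rfl
    have h4 := hcon z hz.le
    have h5 := hinj (h4.trans h3.symm : φ z = φ _)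
    exact hz.ne h5.symm
  · intro x
    rw [hB, ← hc x _ le_rfl]
    exact tr_mem (hφ _) x

/-- No uncountable set of reals embeds. -/
theorem no_real (S : Set ℝ) (hS : ¬ S.Countable) (ψ : S → Lex (W → ℕ)) (hψ : StrictMono ψ)
    (hN : ∀ z, ofLex (ψ z) ∈ Nd G) : False := by
  obtain ⟨D, hD, hD2⟩ := TopologicalSpace.exists_countable_dense S
  have hsup : ∀ d : S, ∃ x, ∀ y, x ≤ y → tr y (ofLex (ψ d)) = ofLex (ψ d) := fun d =>
    exists_tr_self (hN d)
  choose X hX using hsup
  obtain ⟨x, hx⟩ := exists_bound (hD.image X)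
  have hfib : ∃ c, ¬ {s : S | toLex (tr x (ofLex (ψ s))) = c}.Countable := by
    by_contra h
    push Not at h
    have h2 : (univ : Set S) ⊆ ⋃ c ∈ range (fun s : S => toLex (tr x (ofLex (ψ s)))),
        {s : S | toLex (tr x (ofLex (ψ s))) = c} := fun z _ =>
      mem_biUnion (mem_range_self z) rfl
    have h3 : (range (fun s : S => toLex (tr x (ofLex (ψ s))))).Countable := by
      refine ((countable_Nd (G := G) x).image toLex).mono ?_
      rintro _ ⟨z, rfl⟩
      exact ⟨_, ⟨tr_mem (hN z) x, fun y hy => tr_of_le hy _⟩, rfl⟩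
    have h4 : (univ : Set S).Countable := (h3.biUnion fun c _ => h c).mono h2
    exact hS (countable_coe_iff.1 (countable_univ_iff.1 h4))
  obtain ⟨c, hc⟩ := hfib
  have hinf : {s : S | toLex (tr x (ofLex (ψ s))) = c}.Infinite := fun h => hc h.countable
  obtain ⟨s₁, hs₁, s₂, hs₂, s₃, hs₃, h12, h23⟩ : ∃ s₁ ∈ {s : S | toLex (tr x (ofLex (ψ s))) = c},
      ∃ s₂ ∈ {s : S | toLex (tr x (ofLex (ψ s))) = c},
      ∃ s₃ ∈ {s : S | toLex (tr x (ofLex (ψ s))) = c}, s₁ < s₂ ∧ s₂ < s₃ := by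
    obtain ⟨F, hF, hF3⟩ := hinf.exists_subset_card_eq 3
    let e := F.orderEmbOfFin hF3
    refine ⟨e 0, hF (F.orderEmbOfFin_mem hF3 0), e 1, hF (F.orderEmbOfFin_mem hF3 1), e 2,
      hF (F.orderEmbOfFin_mem hF3 2), e.strictMono (by decide), e.strictMono (by decide)⟩
  obtain ⟨d, hd1, hd2⟩ := hD2.exists_mem_open (isOpen_Ioo (a := s₁) (b := s₃)) ⟨s₂, h12, h23⟩
  have h1 := tr_le_tr (f := ofLex (ψ s₁)) (g := ofLex (ψ d)) (hψ hd2.1).le x
  have h2 := tr_le_tr (f := ofLex (ψ d)) (g := ofLex (ψ s₃)) (hψ hd2.2).le x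
  have hs₁' : toLex (tr x (ofLex (ψ s₁))) = c := hs₁
  have hs₃' : toLex (tr x (ofLex (ψ s₃))) = c := hs₃
  rw [hs₁'] at h1
  rw [hs₃'] at h2
  have h3 : toLex (tr x (ofLex (ψ d))) = c := le_antisymm h2 h1
  rw [hX d x (hx _ ⟨d, hd1, rfl⟩).le] at h3
  have h4 : ψ d ≤ ψ s₁ := by
    change toLex (ofLex (ψ d)) ≤ _
    rw [h3, ← hs₁']
    exact tr_le_self _ x
  exact absurd (hψ hd2.1) (not_lt.2 h4)

/-- The line. -/
abbrev Ln (G : W → Set Word) : Type := {f : Lex (W → ℕ) // ofLex f ∈ Nd G}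

theorem uncountable_Ln : Uncountable (Ln G) := by
  have h : Function.Injective (fun x : W => (⟨toLex (E G [(x, 0)]), ⟨_, rfl⟩⟩ : Ln G)) := by
    intro x y hxy
    have h1 : E G [(x, 0)] = E G [(y, 0)] := congrArg (fun f : Ln G => ofLex f.1) hxy
    have h2 : ∀ z, ρ z < ω ^ ρ x ↔ ρ z < ω ^ ρ y := by
      intro z
      have h3 := E_ne_zero (G := G) [(x, 0)] z
      have h4 := E_ne_zero (G := G) [(y, 0)] z
      rw [h1] at h3
      simp only [len, add_zero] at h3 h4
      rw [← h3, ← h4]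
    have h5 : ∀ a b : W, (∀ z, ρ z < ω ^ ρ a ↔ ρ z < ω ^ ρ b) → ω ^ ρ a ≤ ω ^ ρ b := by
      intro a b h
      refine le_of_forall_lt fun ξ hξ => ?_
      obtain ⟨z, rfl⟩ := exists_ρ (hξ.trans
        (Ordinal.isPrincipal_opow_omega 1 omega0_lt_omega_one (ρ_lt a)))
      exact (h z).1 hξ
    have h6 : ω ^ ρ x = ω ^ ρ y := le_antisymm (h5 x y h2) (h5 y x fun z => (h2 z).symm)
    exact ρ_inj (Ordinal.opow_right_inj one_lt_omega0 |>.1 h6)
  exact h.uncountable

/-- The line embeds in its uncountable subsets. -/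
theorem minimal (hG : Guesses G) (K : Set (Ln G)) (hK : ¬ K.Countable) : Nonempty (Ln G ↪o K) := by
  obtain ⟨t, n, hv⟩ := capture hG {w | ∃ k ∈ K, ∃ x, len w ≤ ρ x ∧ E G w = tr x (ofLex k.1)} (by
      rintro w ⟨k, hk, x, hx, hx2⟩ w' hw'
      obtain ⟨y, hy⟩ := exists_len_eq w'
      refine ⟨k, hk, y, hy.ge, ?_⟩
      rw [E_ini hw' y hy, hx2]
      have hyx : y ≤ x := by rw [← ρ_le_ρ, hy]; exact hw'.1.trans hx
      funext z
      by_cases hz : z < y
      · rw [tr_of_lt hz, tr_of_lt hz, tr_of_lt (hz.trans_le hyx)]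
      · rw [tr_of_le (not_lt.1 hz), tr_of_le (not_lt.1 hz)])
    (by
      intro x
      have h1 : ∃ k ∈ K, ¬ ∀ y, x ≤ y → ofLex k.1 y = 0 := by
        by_contra hcon
        push Not at hcon
        apply hK
        have h2 : MapsTo (fun k : Ln G => ofLex k.1) K {f | f ∈ Nd G ∧ ∀ y, x ≤ y → f y = 0} :=
          fun k hk => ⟨k.2, hcon k hk⟩
        exact h2.countable_of_injOn (fun a _ b _ hab => Subtype.ext hab) (countable_Nd x)
      obtain ⟨k, hk, h2⟩ := h1
      push Not at h2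
      obtain ⟨y, hy, hy2⟩ := h2
      obtain ⟨w, hw⟩ := k.2
      rw [← hw] at hy2
      have h3 := (E_ne_zero (G := G) w y).1 hy2
      obtain ⟨z, hz⟩ := exists_len_eq w
      refine ⟨w, ⟨k, hk, z, hz.ge, ?_⟩, (ρ_le_ρ.2 hy).trans h3.le⟩
      rw [← hw, tr_E_self hz.ge])
  -- the images of the elements of the line
  obtain ⟨a, ha⟩ := exists_ρ (Ordinal.omega_pos 1)
  have ha1 : blk G a 0 = 1 := by
    have hno : ¬ ∃ γ, γ < a := by
      rintro ⟨γ, hγ⟩
      have := ρ_lt_ρ.2 hγ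
      rw [ha] at this
      exact not_lt_bot this
    rw [blk_eq]
    unfold mk
    rw [dif_neg hno, if_pos rfl]
  have hF : ∀ f : Ln G, ∃ s : Word, E G s = ofLex f.1 ∧
      ∃ k : K, ∃ x, len (t ++ sh n (sh 1 s ++ [(a, 0)])) ≤ ρ x ∧
        E G (t ++ sh n (sh 1 s ++ [(a, 0)])) = tr x (ofLex k.1.1) := by
    intro f
    obtain ⟨s, hs⟩ := f.2
    obtain ⟨k, hk, h1⟩ := hv (sh 1 s ++ [(a, 0)])
    exact ⟨s, hs, ⟨k, hk⟩, h1⟩
  choose s hs F x hx hF using hF
  have hlen1 : len [(a, 0)] = 1 := by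
    change ω ^ ρ a + 0 = 1
    rw [ha, Ordinal.opow_zero, add_zero]
  -- the values of the image
  have hval : ∀ f : Ln G, ∀ z : W, ρ z < len t + (len (s f) + 1) →
      ofLex (F f).1.1 z = ev (blk G) (t ++ sh n (sh 1 (s f) ++ [(a, 0)])) (ρ z) := by
    intro f z hz
    have h1 : ρ z < len (t ++ sh n (sh 1 (s f) ++ [(a, 0)])) := by
      rw [len_append, len_sh, len_append, len_sh, hlen1]
      exact hz
    have h2 : z < x f := ρ_lt_ρ.1 (h1.trans_le (hx f))
    have h3 := congrFun (hF f) z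
    rw [tr_of_lt h2] at h3
    exact h3.symm
  have hval1 : ∀ f : Ln G, ∀ z : W, ρ z < len t → ofLex (F f).1.1 z = ev (blk G) t (ρ z) := by
    intro f z hz
    rw [hval f z (hz.trans_le le_self_add), ev_append, if_pos hz]
  have hval2 : ∀ f : Ln G, ∀ z : W, ∀ o < len (s f), ρ z = len t + o →
      ofLex (F f).1.1 z = ev (blk G) (s f) o + 1 + n := by
    intro f z o ho hz
    have h0 : ev (blk G) (s f) o ≠ 0 := (ev_blk_ne_zero (G := G) _ _).2 ho
    rw [hval f z (by
      rw [hz]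
      exact add_lt_add_right (ho.trans_le le_self_add) _), ev_append, hz,
      if_neg (not_lt.2 le_self_add), Ordinal.add_sub_cancel, ev_sh]
    unfold sft
    rw [ev_append, len_sh, if_pos ho, ev_sh]
    unfold sft
    simp [h0]
  have hval3 : ∀ f : Ln G, ∀ z : W, ρ z = len t + len (s f) →
      ofLex (F f).1.1 z = 1 + n := by
    intro f z hz
    rw [hval f z (by
      rw [hz]
      exact add_lt_add_right (lt_add_of_pos_right _ zero_lt_one) _), ev_append, hz,
      if_neg (not_lt.2 le_self_add), Ordinal.add_sub_cancel, ev_sh]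
    unfold sft
    have h1 : ev (blk G) (sh 1 (s f) ++ [(a, 0)]) (len (s f)) = 1 := by
      rw [ev_append, len_sh, if_neg (lt_irrefl _), Ordinal.sub_self]
      change cat (ω ^ ρ a) (sft 0 (blk G a)) (fun _ => 0) 0 = 1
      have h2 : (0 : Ordinal.{0}) < ω ^ ρ a := Ordinal.opow_pos _ omega0_pos
      simp only [cat, h2, if_true, sft, ha1]
      simp
    rw [h1]
    simp
  refine ⟨OrderEmbedding.ofStrictMono F ?_⟩
  intro f g hfg
  change toLex (ofLex (F f).1.1) < toLex (ofLex (F g).1.1)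
  obtain ⟨z, h1, h2⟩ : Lt (E G (s f)) (E G (s g)) := by
    rw [hs, hs]
    exact hfg
  have hg : ρ z < len (s g) := (E_ne_zero (G := G) _ _).1 (by omega)
  have hlt1 : ∀ o, o < len t + (len (s g) + 1) → o < ω₁ := by
    intro o ho
    have h3 : len t + (len (s g) + 1) = len (t ++ (s g ++ [(a, 0)])) := by
      rw [len_append, len_append, hlen1]
    rw [h3] at ho
    exact ho.trans (len_lt _)
  have hlt2 : ∀ o, o < len (s g) → len t + o < ω₁ := fun o ho =>
    hlt1 _ (add_lt_add_right (ho.trans_le le_self_add) _)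
  obtain ⟨z', hz'⟩ := exists_ρ (hlt2 _ hg)
  have hgz : ofLex (F g).1.1 z' = E G (s g) z + 1 + n := hval2 g z' _ hg hz'
  have hle : ρ z ≤ len (s f) := by
    by_contra hcon
    rw [not_le] at hcon
    obtain ⟨y, hy⟩ := exists_len_eq (s f)
    have hyz : y < z := by rw [← ρ_lt_ρ, hy]; exact hcon
    have h3 := h1 y hyz
    have h4 : E G (s f) y = 0 := by
      by_contra h5
      have h6 := (E_ne_zero (G := G) _ _).1 h5
      rw [hy] at h6
      exact lt_irrefl _ h6
    have h5 : E G (s g) y ≠ 0 := (E_ne_zero (G := G) _ _).2 (by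
      rw [hy]
      exact hcon.trans hg)
    rw [h4] at h3
    exact h5 h3.symm
  refine toLex_lt.2 ⟨z', fun y hy => ?_, ?_⟩
  · have hy1 : ρ y < len t + ρ z := by rw [← hz']; exact ρ_lt_ρ.2 hy
    by_cases hyt : ρ y < len t
    · rw [hval1 f y hyt, hval1 g y hyt]
    · have h3 : len t + (ρ y - len t) = ρ y := Ordinal.add_sub_cancel_of_le (not_lt.1 hyt)
      have h4 : ρ y - len t < ρ z := by
        rw [← h3] at hy1
        exact lt_of_add_lt_add_left hy1
      obtain ⟨y', hy'⟩ := exists_ρ (h4.trans (ρ_lt z))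
      have h5 : y' < z := by rw [← ρ_lt_ρ, hy']; exact h4
      rw [hval2 f y _ (h4.trans_le hle) h3.symm, hval2 g y _ (h4.trans hg) h3.symm, ← hy']
      have h6 := h1 y' h5
      unfold E at h6
      rw [h6]
  · rw [hgz]
    rcases hle.eq_or_lt with h3 | h3
    · rw [hval3 f z' (by rw [hz', h3])]
      have h4 : E G (s g) z ≠ 0 := (E_ne_zero (G := G) _ _).2 hg
      omega
    · have h4 : ofLex (F f).1.1 z' = E G (s f) z + 1 + n := hval2 f z' _ h3 hz'
      rw [h4]
      omega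

end Pool.Agent.H635.Dia
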