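import Pool.Agent.H635.Dia.Words

/-!
# The blocks

Given a set `G δ` of words for each `δ : W`, the block with index `δ` is the limit of an increasing
sequence of words with indices below `δ`, chosen in such a way that the concatenations of words and
shifts of this block leave the set denoted by `G δ`, if this is possible.
-/

set_option autoImplicit false

namespace Pool.Agent.H635.Dia

open Ordinal Set

/-- No word of `G` with indices below `δ` denotes the same sequence as `u`. -/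
def Av (G : Set Word) (δ : W) (B : W → Seq) (u : Word) : Prop :=
  ∀ w ∈ Words δ, w ∈ G → ev B w ≠ ev B u

/-- The requirements for a sequence of words with limit the block with index `δ`. -/
structure Good (G : Set Word) (δ : W) (B : W → Seq) (U : ℕ → Word) : Prop where
  mem : ∀ k, U k ∈ Words δ
  ext : ∀ k, ∃ v, U (k + 1) = U k ++ v
  cof : ∀ α < ω ^ ρ δ, ∃ k, α < len (U k)
  kill : (∀ t ∈ Words δ, ∀ n, ∃ v ∈ Words δ, Av G δ B (t ++ sh n v)) →
    ∀ t ∈ Words δ, ∀ n, ∃ k, Av G δ B (t ++ sh n (U k))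

theorem len_replicate (γ : W) (m : ℕ) : len (List.replicate m (γ, 0)) = ω ^ ρ γ * m := by
  induction m with
  | zero => simp [len]
  | succ m ih =>
    rw [List.replicate_succ]
    change ω ^ ρ γ + len (List.replicate m (γ, 0)) = _
    rw [ih, add_comm m 1, Nat.cast_add, Nat.cast_one, mul_add, mul_one]

/-- An increasing sequence of words which meets countably many dense sets. -/
theorem exists_seq {I : Type} [Countable I] [Nonempty I] (δ : W) (D : I → Word → Prop)
    (hD : ∀ i, ∀ u ∈ Words δ, ∃ v, u ++ v ∈ Words δ ∧ D i (u ++ v)) :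
    ∃ U : ℕ → Word, (∀ k, U k ∈ Words δ) ∧ (∀ k, ∃ v, U (k + 1) = U k ++ v) ∧
      ∀ i, ∃ k, D i (U k) := by
  obtain ⟨e, he⟩ := exists_surjective_nat I
  choose! v hv1 hv2 using hD
  let U : ℕ → Word := fun k => Nat.rec [] (fun k u => u ++ v (e k) u) k
  have hU : ∀ k, U k ∈ Words δ := by
    intro k
    induction k with
    | zero => exact nil_mem δ
    | succ k ih => exact hv1 _ _ ih
  refine ⟨U, hU, fun k => ⟨_, rfl⟩, fun i => ?_⟩
  obtain ⟨k, rfl⟩ := he i
  exact ⟨k + 1, hv2 _ _ (hU k)⟩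

theorem exists_good (G : Set Word) {δ : W} (hδ : ∃ γ, γ < δ) (B : W → Seq) :
    ∃ U, Good G δ B U := by
  have : Countable (Iio δ) := (countable_Iio δ).to_subtype
  have : Countable (Words δ) := (countable_Words δ).to_subtype
  obtain ⟨γ₀, hγ₀⟩ := hδ
  have : Nonempty (Iio δ) := ⟨⟨γ₀, hγ₀⟩⟩
  let H : Prop := ∀ t ∈ Words δ, ∀ n, ∃ v ∈ Words δ, Av G δ B (t ++ sh n v)
  let D : (Iio δ × ℕ) ⊕ (Words δ × ℕ) → Word → Prop := fun i u =>
    match i with
    | Sum.inl p => ω ^ ρ p.1 * p.2 ≤ len u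
    | Sum.inr q => H → Av G δ B ((q.1 : Word) ++ sh q.2 u)
  obtain ⟨U, h1, h2, h3⟩ := exists_seq δ D (by
    rintro (⟨⟨γ, hγ⟩, m⟩ | ⟨⟨t, ht⟩, n⟩) u hu
    · refine ⟨List.replicate m (γ, 0), append_mem.2 ⟨hu, fun p hp => ?_⟩, ?_⟩
      · rw [List.eq_of_mem_replicate hp]
        exact hγ
      · change ω ^ ρ γ * m ≤ len _
        rw [len_append, len_replicate]
        exact le_add_self
    · by_cases hH : H
      · obtain ⟨v, hv, hv2⟩ := hH (t ++ sh n u) (append_mem.2 ⟨ht, sh_mem.2 hu⟩) n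
        refine ⟨v, append_mem.2 ⟨hu, hv⟩, fun _ => ?_⟩
        change Av G δ B (t ++ sh n (u ++ v))
        rw [sh_append, ← List.append_assoc]
        exact hv2
      · refine ⟨[], by rw [List.append_nil]; exact hu, fun h => absurd h hH⟩)
  refine ⟨U, h1, h2, fun α hα => ?_, fun hH t ht n => ?_⟩
  · have h0 : ρ δ ≠ 0 := by
      have : ρ γ₀ < ρ δ := ρ_lt_ρ.2 hγ₀
      exact (bot_le.trans_lt this).ne'
    obtain ⟨c, hc, m, hm⟩ := (Ordinal.lt_omega0_opow h0).1 hα
    obtain ⟨γ, rfl⟩ := exists_ρ (hc.trans (ρ_lt δ))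
    obtain ⟨k, hk⟩ := h3 (Sum.inl (⟨γ, ρ_lt_ρ.1 hc⟩, m))
    exact ⟨k, hm.trans_le hk⟩
  · obtain ⟨k, hk⟩ := h3 (Sum.inr (⟨t, ht⟩, n))
    exact ⟨k, hk hH⟩

open Classical in
/-- The limit of a sequence of words. -/
noncomputable def lim (B : W → Seq) (U : ℕ → Word) : Seq := fun ξ =>
  if h : ∃ k, ξ < len (U k) then ev B (U (Nat.find h)) ξ else 0

open Classical in
/-- The block with index `δ`, if `B` contains the blocks with smaller indices. -/
noncomputable def mk (G : W → Set Word) (δ : W) (B : W → Seq) : Seq :=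
  if h : ∃ γ, γ < δ then lim B (exists_good (G δ) h B).choose else fun ξ => if ξ = 0 then 1 else 0

open Classical in
/-- The blocks. -/
noncomputable def blk (G : W → Set Word) : W → Seq :=
  WellFounded.fix (wellFounded_lt : WellFounded ((· < ·) : W → W → Prop))
    (fun δ rec => mk G δ fun γ => if h : γ < δ then rec γ h else fun _ => 0)

open Classical in
/-- The blocks with indices below `δ`. -/
noncomputable def cut (G : W → Set Word) (δ : W) : W → Seq :=
  fun γ => if γ < δ then blk G γ else fun _ => 0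

theorem blk_eq (G : W → Set Word) (δ : W) : blk G δ = mk G δ (cut G δ) := by
  unfold blk
  rw [WellFounded.fix_eq]
  congr 1

theorem ev_cut {G : W → Set Word} {δ : W} {w : Word} (hw : w ∈ Words δ) :
    ev (cut G δ) w = ev (blk G) w :=
  ev_congr (fun x hx => by simp [cut, hx]) hw

theorem av_cut {G : W → Set Word} {δ : W} {u : Word} (hu : u ∈ Words δ) :
    Av (G δ) δ (cut G δ) u ↔ Av (G δ) δ (blk G) u := by
  unfold Av
  refine forall_congr' fun w => forall_congr' fun hw => ?_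
  rw [ev_cut hw, ev_cut hu]

theorem good_cut {G : W → Set Word} {δ : W} {U : ℕ → Word} (h : Good (G δ) δ (cut G δ) U) :
    Good (G δ) δ (blk G) U := by
  refine ⟨h.mem, h.ext, h.cof, fun hH t ht n => ?_⟩
  obtain ⟨k, hk⟩ := h.kill (fun t ht n => by
    obtain ⟨v, hv, hv2⟩ := hH t ht n
    exact ⟨v, hv, (av_cut (append_mem.2 ⟨ht, sh_mem.2 hv⟩)).2 hv2⟩) t ht n
  exact ⟨k, (av_cut (append_mem.2 ⟨ht, sh_mem.2 (h.mem k)⟩)).1 hk⟩

theorem ext_le {U : ℕ → Word} (h : ∀ k, ∃ v, U (k + 1) = U k ++ v) {j k : ℕ} (hjk : j ≤ k) :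
    ∃ v, U k = U j ++ v := by
  induction k, hjk using Nat.le_induction with
  | base => exact ⟨[], by simp⟩
  | succ k _ ih =>
    obtain ⟨v, hv⟩ := ih
    obtain ⟨v', hv'⟩ := h k
    exact ⟨v ++ v', by rw [hv', hv, List.append_assoc]⟩

theorem ev_ext {U : ℕ → Word} (h : ∀ k, ∃ v, U (k + 1) = U k ++ v) (B : W → Seq) {j k : ℕ}
    {ξ : Ordinal.{0}} (hj : ξ < len (U j)) (hk : ξ < len (U k)) :
    ev B (U j) ξ = ev B (U k) ξ := by
  rcases le_total j k with hjk | hjk
  · obtain ⟨v, hv⟩ := ext_le h hjk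
    rw [hv, ev_append, if_pos hj]
  · obtain ⟨v, hv⟩ := ext_le h hjk
    rw [hv, ev_append, if_pos hk]

theorem lim_eq {U : ℕ → Word} (h : ∀ k, ∃ v, U (k + 1) = U k ++ v) (B : W → Seq) {k : ℕ}
    {ξ : Ordinal.{0}} (hk : ξ < len (U k)) : lim B U ξ = ev B (U k) ξ := by
  classical
  have h0 : ∃ k, ξ < len (U k) := ⟨k, hk⟩
  unfold lim
  rw [dif_pos h0]
  have h1 := Nat.find_spec h0
  convert ev_ext h B h1 hk

/-- The main property of the blocks. -/
theorem blk_spec (G : W → Set Word) {δ : W} (hδ : ∃ γ, γ < δ) :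
    ∃ U, Good (G δ) δ (blk G) U ∧ ∀ k, ∀ ξ < len (U k), blk G δ ξ = ev (blk G) (U k) ξ := by
  have h := (exists_good (G δ) hδ (cut G δ)).choose_spec
  refine ⟨_, good_cut h, fun k ξ hξ => ?_⟩
  rw [blk_eq]
  unfold mk
  rw [dif_pos hδ, lim_eq h.ext _ hξ, ev_cut (h.mem k)]

theorem blk_isB (G : W → Set Word) (δ : W) : IsB (blk G) δ := by
  induction δ using WellFoundedLT.induction with
  | ind δ ih =>
    by_cases hδ : ∃ γ, γ < δ
    · obtain ⟨U, hU, h⟩ := blk_spec G hδ
      have hne : ∀ k, ∀ ξ, ev (blk G) (U k) ξ ≠ 0 ↔ ξ < len (U k) := fun k ξ =>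
        ev_ne_zero (fun p hp => ih _ (hU.mem k p hp)) ξ
      refine ⟨fun ξ => ⟨fun h1 => ?_, fun h1 => ?_⟩, fun α hα => ?_⟩
      · by_contra h2
        apply h1
        rw [blk_eq]
        unfold mk
        rw [dif_pos hδ]
        unfold lim
        rw [dif_neg]
        rintro ⟨k, hk⟩
        apply h2
        have h3 := (exists_good (G δ) hδ (cut G δ)).choose_spec
        exact hk.trans (len_lt_opow (h3.mem k))
      · obtain ⟨k, hk⟩ := hU.cof ξ h1
        rw [h k ξ hk]
        exact (hne k ξ).2 hk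
      · obtain ⟨k, hk⟩ := hU.cof α hα
        obtain ⟨w', h1, h2, h3⟩ := exists_trunc ih (hU.mem k) hk.le
        refine ⟨w', h1, h2, fun ξ hξ => ?_⟩
        rw [h3 ξ hξ, h k ξ (hξ.trans hk)]
    · have h0 : ρ δ = 0 := by
        by_contra h1
        obtain ⟨γ, hγ⟩ := exists_ρ (Ordinal.omega_pos 1)
        apply hδ
        refine ⟨γ, ρ_lt_ρ.1 ?_⟩
        rw [hγ]
        exact bot_lt_iff_ne_bot.2 h1
      have h1 : ∀ ξ, blk G δ ξ = if ξ = 0 then 1 else 0 := by
        intro ξ
        rw [blk_eq]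
        unfold mk
        rw [dif_neg hδ]
      have h2 : ω ^ ρ δ = (1 : Ordinal.{0}) := by rw [h0, Ordinal.opow_zero]
      refine ⟨fun ξ => ?_, fun α hα => ?_⟩
      · rw [h1, h2]
        by_cases h3 : ξ = 0
        · simp [h3]
        · simp [h3]
      · rw [h2] at hα
        have h3 : α = 0 := Order.lt_one_iff.1 hα
        refine ⟨[], nil_mem δ, h3.symm, fun ξ hξ => ?_⟩
        rw [h3] at hξ
        exact absurd hξ (not_lt_bot)

end Pool.Agent.H635.Dia
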