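import Mathlib
import Pool.Agent.H635.Dia.Line

/-!
# MP_65c32d_lc, Q1: `♢` implies that there is a minimal Aronszajn line

Sketch. A word is a finite sequence of pairs `(β, n)` with `β < ω₁` and `n < ω`; it denotes the
concatenation of the sequences `gⁿ(b_β)`, where `b_β` is a sequence of natural numbers of length
`ω ^ β` and `g` adds 1 to all the entries of a sequence. The sequences denoted by the words form a
tree `T` with countable levels, provided that the proper initial segments of each `b_β` are denoted
by words with smaller indices. Given a guess `S_β` for a subset of this part of the tree, closed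
under initial segments, `b_β` is chosen in such a way that no sequence `t ⌢ gⁿ(b_β)` is a branch
through `S_β`, unless `S_β` contains all the sequences `t ⌢ gⁿ(v)` for some `t` and `n`. So by `♢`
every uncountable subset `S` of `T` that is closed under initial segments contains all the
sequences `t ⌢ gⁿ(v)`, `v ∈ T`, for some `t` and `n`. Let `X` be an uncountable subset of `T`, and
let `S` be the set of the initial segments of the elements of `X`. Then a strictly increasing map
from `T` to `X` for the lexicographic order is given by mapping `s` to an element of `X` that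
extends `t ⌢ gⁿ(g(s) ⌢ 0)`.
-/

set_option autoImplicit false

namespace Pool.Agent.H635.Dia.DiamondMinimal

open Set

/-- The linear order `ω₁`. -/
abbrev Om : Type := (Ordinal.omega 1 : Ordinal.{0}).ToType

/-- The principle `♢`: there are sets `A α ⊆ α`, for `α < ω₁`, such that for every `X ⊆ ω₁` the set
of all `α` with `X ∩ α = A α` is stationary. -/
def Diamond : Prop :=
  ∃ A : Om → Set Om, (∀ α, A α ⊆ Iio α) ∧ ∀ X : Set Om, IsStationary {α : Om | X ∩ Iio α = A α}

/-- `L` is an Aronszajn line: it is uncountable, and neither `ω₁` nor its reverse nor an uncountable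
set of reals embeds into `L`. -/
def IsAronszajnLine (L : Type) [LinearOrder L] : Prop :=
  Uncountable L ∧ IsEmpty (Om ↪o L) ∧ IsEmpty (Omᵒᵈ ↪o L) ∧
    ∀ S : Set ℝ, ¬ S.Countable → IsEmpty (S ↪o L)

/-- `L` is minimal: it is uncountable, and it embeds into every uncountable suborder of `L`. -/
def IsMinimalLine (L : Type) [LinearOrder L] : Prop :=
  Uncountable L ∧ ∀ K : Set L, ¬ K.Countable → Nonempty (L ↪o K)

/-- `♢` implies that there is a minimal Aronszajn line. -/
theorem diamond_minimal : Diamond → ∃ (L : Type) (_ : LinearOrder L), IsAronszajnLine L ∧ IsMinimalLine L := by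
  intro h
  obtain ⟨G, hG⟩ := H635.Dia.guess h
  have hunc : Uncountable (H635.Dia.Ln G) := H635.Dia.uncountable_Ln
  refine ⟨H635.Dia.Ln G, inferInstance, ⟨hunc, ⟨fun φ => ?_⟩, ⟨fun φ => ?_⟩, fun S hS => ⟨fun φ => ?_⟩⟩,
    hunc, fun K hK => H635.Dia.minimal hG K hK⟩
  · refine H635.Dia.no_omega1 hG (fun z => (φ z).1) (fun a b hab => φ.injective (Subtype.ext hab))
      (fun z => (φ z).2) (Or.inl fun a b hab => ?_)
    exact φ.monotone hab
  · refine H635.Dia.no_omega1 hG (fun z => (φ (OrderDual.toDual z)).1)
      (fun a b hab => OrderDual.toDual.injective (φ.injective (Subtype.ext hab)))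
      (fun z => (φ _).2) (Or.inr fun a b hab => ?_)
    exact φ.monotone (OrderDual.toDual_le_toDual.2 hab)
  · exact H635.Dia.no_real (G := G) S hS (fun z => (φ z).1) (fun a b hab => φ.strictMono hab)
      (fun z => (φ z).2)

end Pool.Agent.H635.Dia.DiamondMinimal
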