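import Mathlib

/-!
# Words of blocks and the transfinite sequences they denote

`ρ` identifies the type `W` with the ordinals below `ω₁`. A block with index `x : W` is a sequence
of length `ω ^ ρ x` (a function on the ordinals which is nonzero exactly below its length), and a
word is a finite concatenation of shifted blocks.
-/

set_option autoImplicit false

namespace Pool.Agent.H635.Dia

open Ordinal Set

/-- `ω₁` as a type. -/
abbrev W : Type := (ω₁ : Ordinal.{0}).ToType

/-- The ordinal of an element of `W`. -/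
noncomputable def ρ (x : W) : Ordinal.{0} :=
  ((Ordinal.ToType.mk (o := (ω₁ : Ordinal.{0}))).symm x).1

theorem ρ_lt (x : W) : ρ x < ω₁ := ((Ordinal.ToType.mk (o := (ω₁ : Ordinal.{0}))).symm x).2

theorem ρ_lt_ρ {x y : W} : ρ x < ρ y ↔ x < y := by
  unfold ρ
  rw [Subtype.coe_lt_coe]
  exact (Ordinal.ToType.mk (o := (ω₁ : Ordinal.{0}))).symm.lt_iff_lt

theorem ρ_le_ρ {x y : W} : ρ x ≤ ρ y ↔ x ≤ y := by
  rw [← not_lt, ← not_lt, ρ_lt_ρ]

theorem ρ_inj {x y : W} (h : ρ x = ρ y) : x = y := by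
  apply le_antisymm
  · exact ρ_le_ρ.1 h.le
  · exact ρ_le_ρ.1 h.ge

theorem exists_ρ {o : Ordinal.{0}} (h : o < ω₁) : ∃ x, ρ x = o := by
  refine ⟨(Ordinal.ToType.mk (o := (ω₁ : Ordinal.{0}))) ⟨o, h⟩, ?_⟩
  unfold ρ
  rw [OrderIso.symm_apply_apply]

theorem mk_W : Cardinal.mk W = Cardinal.aleph 1 := by
  rw [Cardinal.mk_toType, Ordinal.card_omega]

theorem countable_Iio (x : W) : (Iio x).Countable := by
  have h : Cardinal.mk (Iio x) < Cardinal.mk W := by
    apply Cardinal.mk_Iio_lt
    rw [mk_W, Ordinal.type_toType, Cardinal.ord_aleph]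
  rw [mk_W, ← Cardinal.succ_aleph0, Order.lt_succ_iff] at h
  exact Cardinal.le_aleph0_iff_set_countable.1 h

theorem countable_Iic (x : W) : (Iic x).Countable := by
  have : Iic x = Iio x ∪ {x} := by
    ext y
    simp [le_iff_lt_or_eq]
  rw [this]
  exact (countable_Iio x).union (countable_singleton x)

instance uncountable_W : Uncountable W := by
  rw [← Cardinal.aleph0_lt_mk_iff, mk_W]
  exact Cardinal.aleph0_lt_aleph_one

/-- Countable subsets of `W` are strictly bounded. -/
theorem exists_bound {S : Set W} (hS : S.Countable) : ∃ b, ∀ a ∈ S, a < b := by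
  by_contra h
  push Not at h
  have h1 : (univ : Set W) ⊆ ⋃ a ∈ S, Iic a := by
    intro b _
    obtain ⟨a, ha, hb⟩ := h b
    exact mem_biUnion ha hb
  have h2 : (univ : Set W).Countable :=
    (hS.biUnion fun a _ => countable_Iic a).mono h1
  exact not_countable_univ h2

/-- Transfinite sequences of natural numbers: functions on the ordinals; such a function is thought
of as a sequence of length `α` if it is nonzero exactly below `α`. -/
abbrev Seq : Type 1 := Ordinal.{0} → ℕ

/-- Words. -/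
abbrev Word : Type := List (W × ℕ)

/-- The length of the sequence denoted by a word. -/
noncomputable def len : Word → Ordinal.{0}
  | [] => 0
  | p :: w => ω ^ ρ p.1 + len w

/-- Concatenation of `s` (of length `α`) and `t`. -/
noncomputable def cat (α : Ordinal.{0}) (s t : Seq) : Seq := fun ξ => if ξ < α then s ξ else t (ξ - α)

/-- Add `n` to the values of a sequence. -/
def sft (n : ℕ) (s : Seq) : Seq := fun ξ => if s ξ = 0 then 0 else s ξ + n

/-- The sequence denoted by a word, if `b x` is the block with index `x`. -/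
noncomputable def ev (b : W → Seq) : Word → Seq
  | [] => fun _ => 0
  | p :: w => cat (ω ^ ρ p.1) (sft p.2 (b p.1)) (ev b w)

/-- Shift of a word. -/
def sh (n : ℕ) (w : Word) : Word := w.map fun p => (p.1, p.2 + n)

theorem len_append (w w' : Word) : len (w ++ w') = len w + len w' := by
  induction w with
  | nil => simp [len]
  | cons p w ih => simp [len, ih, add_assoc]

theorem len_sh (n : ℕ) (w : Word) : len (sh n w) = len w := by
  induction w with
  | nil => rfl
  | cons p w ih =>
    change ω ^ ρ p.1 + len (sh n w) = ω ^ ρ p.1 + len w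
    rw [ih]

theorem sh_append (n : ℕ) (w w' : Word) : sh n (w ++ w') = sh n w ++ sh n w' := List.map_append

theorem ev_append (b : W → Seq) (w w' : Word) (ξ : Ordinal.{0}) :
    ev b (w ++ w') ξ = if ξ < len w then ev b w ξ else ev b w' (ξ - len w) := by
  induction w generalizing ξ with
  | nil => simp [len, Ordinal.sub_zero]
  | cons p w ih =>
    simp only [List.cons_append, ev, cat, len]
    by_cases h : ξ < ω ^ ρ p.1
    · have h2 : ξ < ω ^ ρ p.1 + len w := h.trans_le le_self_add
      simp [h, h2]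
    · simp only [h, if_false]
      rw [ih]
      have h3 : ω ^ ρ p.1 + (ξ - ω ^ ρ p.1) = ξ := Ordinal.add_sub_cancel_of_le (not_lt.1 h)
      by_cases h4 : ξ - ω ^ ρ p.1 < len w
      · have h5 : ξ < ω ^ ρ p.1 + len w := by
          rw [← h3]
          exact add_lt_add_right h4 _
        simp [h4, h5]
      · have h5 : ¬ ξ < ω ^ ρ p.1 + len w := by
          rw [← h3]
          intro h6
          exact h4 (lt_of_add_lt_add_left h6)
        simp only [h4, h5, if_false]
        rw [Ordinal.sub_sub]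

theorem sft_eq_zero {n : ℕ} {s : Seq} {ξ : Ordinal.{0}} : sft n s ξ = 0 ↔ s ξ = 0 := by
  unfold sft
  split_ifs with h <;> simp [h]

theorem ev_sh (b : W → Seq) (n : ℕ) (w : Word) : ev b (sh n w) = sft n (ev b w) := by
  induction w with
  | nil => funext ξ; simp [sh, ev, sft]
  | cons p w ih =>
    funext ξ
    change cat (ω ^ ρ p.1) (sft (p.2 + n) (b p.1)) (ev b (sh n w)) ξ =
      sft n (cat (ω ^ ρ p.1) (sft p.2 (b p.1)) (ev b w)) ξ
    rw [ih]
    simp only [cat, sft]
    by_cases h : ξ < ω ^ ρ p.1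
    · simp only [h, if_true]
      by_cases h2 : b p.1 ξ = 0
      · simp [h2]
      · simp [h2, add_assoc]
    · simp only [h, if_false]

/-- The words with indices below `δ`. -/
def Words (δ : W) : Set Word := {w | ∀ p ∈ w, p.1 < δ}

theorem Words_mono {δ δ' : W} (h : δ ≤ δ') : Words δ ⊆ Words δ' :=
  fun _ hw p hp => (hw p hp).trans_le h

theorem nil_mem (δ : W) : ([] : Word) ∈ Words δ := by
  intro p hp
  simp at hp

theorem cons_mem {δ : W} {p : W × ℕ} {w : Word} : p :: w ∈ Words δ ↔ p.1 < δ ∧ w ∈ Words δ :=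
  List.forall_mem_cons

theorem append_mem {δ : W} {w w' : Word} : w ++ w' ∈ Words δ ↔ w ∈ Words δ ∧ w' ∈ Words δ := by
  induction w with
  | nil => simp [nil_mem]
  | cons p w ih => rw [List.cons_append, cons_mem, cons_mem, ih, and_assoc]

theorem sh_mem {δ : W} {w : Word} {n : ℕ} : sh n w ∈ Words δ ↔ w ∈ Words δ := by
  induction w with
  | nil => simp [sh]
  | cons p w ih =>
    change (p.1, p.2 + n) :: sh n w ∈ Words δ ↔ _
    rw [cons_mem, cons_mem, ih]

theorem len_lt_opow {δ : W} {w : Word} (h : w ∈ Words δ) : len w < ω ^ ρ δ := by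
  induction w with
  | nil => exact Ordinal.opow_pos _ omega0_pos
  | cons p w ih =>
    rw [cons_mem] at h
    have h1 : ω ^ ρ p.1 < ω ^ ρ δ := (Ordinal.opow_lt_opow_iff_right one_lt_omega0).2 (ρ_lt_ρ.2 h.1)
    exact Ordinal.isPrincipal_add_omega0_opow _ h1 (ih h.2)

theorem len_lt (w : Word) : len w < ω₁ := by
  induction w with
  | nil => exact Ordinal.omega_pos 1
  | cons p w ih =>
    have h1 : ω ^ ρ p.1 < ω₁ := Ordinal.isPrincipal_opow_omega 1 omega0_lt_omega_one (ρ_lt p.1)
    exact Ordinal.isPrincipal_add_omega 1 h1 ih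

theorem countable_Words (δ : W) : (Words δ).Countable := by
  have : Countable (Iio δ) := (countable_Iio δ).to_subtype
  have h : Words δ ⊆ range (fun l : List (Iio δ × ℕ) => l.map fun p => ((p.1 : W), p.2)) := by
    intro w hw
    induction w with
    | nil => exact ⟨[], rfl⟩
    | cons p w ih =>
      rw [cons_mem] at hw
      obtain ⟨l, hl⟩ := ih hw.2
      refine ⟨(⟨p.1, hw.1⟩, p.2) :: l, ?_⟩
      simp only at hl ⊢
      rw [List.map_cons, hl]
  exact (countable_range _).mono h

theorem ev_congr {b b' : W → Seq} {δ : W} (h : ∀ x < δ, b x = b' x) {w : Word}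
    (hw : w ∈ Words δ) : ev b w = ev b' w := by
  induction w with
  | nil => rfl
  | cons p w ih =>
    rw [cons_mem] at hw
    change cat _ (sft p.2 (b p.1)) (ev b w) = cat _ (sft p.2 (b' p.1)) (ev b' w)
    rw [h _ hw.1, ih hw.2]

/-- The properties of a block: it is a sequence of length `ω ^ ρ x`, whose proper initial segments
are denoted by words with indices below `x`. -/
def IsB (b : W → Seq) (x : W) : Prop :=
  (∀ ξ, b x ξ ≠ 0 ↔ ξ < ω ^ ρ x) ∧
    ∀ α < ω ^ ρ x, ∃ w ∈ Words x, len w = α ∧ ∀ ξ < α, ev b w ξ = b x ξ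

theorem ev_ne_zero {b : W → Seq} {w : Word} (hb : ∀ p ∈ w, IsB b p.1) (ξ : Ordinal.{0}) :
    ev b w ξ ≠ 0 ↔ ξ < len w := by
  induction w generalizing ξ with
  | nil => simp [ev, len]
  | cons p w ih =>
    have h1 := (hb p List.mem_cons_self).1
    have h2 := ih fun q hq => hb q (List.mem_cons_of_mem _ hq)
    simp only [ev, len, cat]
    by_cases h : ξ < ω ^ ρ p.1
    · have h3 : ξ < ω ^ ρ p.1 + len w := h.trans_le le_self_add
      simp only [h, if_true, h3, iff_true]
      rw [Ne, sft_eq_zero]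
      exact (h1 ξ).2 h
    · simp only [h, if_false]
      rw [h2]
      have h3 : ω ^ ρ p.1 + (ξ - ω ^ ρ p.1) = ξ := Ordinal.add_sub_cancel_of_le (not_lt.1 h)
      constructor
      · intro h4
        rw [← h3]
        exact add_lt_add_right h4 _
      · intro h4
        rw [← h3] at h4
        exact lt_of_add_lt_add_left h4

theorem exists_trunc {b : W → Seq} {δ : W} (hb : ∀ x < δ, IsB b x) {w : Word} (hw : w ∈ Words δ)
    {α : Ordinal.{0}} (hα : α ≤ len w) :
    ∃ w' ∈ Words δ, len w' = α ∧ ∀ ξ < α, ev b w' ξ = ev b w ξ := by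
  induction w generalizing α with
  | nil =>
    refine ⟨[], nil_mem δ, ?_, fun _ _ => rfl⟩
    exact (nonpos_iff_eq_zero.1 hα).symm
  | cons p w ih =>
    rw [cons_mem] at hw
    by_cases h : α < ω ^ ρ p.1
    · obtain ⟨w', h1, h2, h3⟩ := (hb p.1 hw.1).2 α h
      refine ⟨sh p.2 w', sh_mem.2 (Words_mono hw.1.le h1), by rw [len_sh, h2], fun ξ hξ => ?_⟩
      rw [ev_sh]
      change _ = cat (ω ^ ρ p.1) (sft p.2 (b p.1)) (ev b w) ξ
      simp only [cat, hξ.trans h, if_true, sft, h3 ξ hξ]
    · rw [not_lt] at h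
      have h0 : ω ^ ρ p.1 + (α - ω ^ ρ p.1) = α := Ordinal.add_sub_cancel_of_le h
      have h1 : α - ω ^ ρ p.1 ≤ len w := by
        rw [Ordinal.sub_le]
        exact hα
      obtain ⟨w', h2, h3, h4⟩ := ih hw.2 h1
      refine ⟨p :: w', cons_mem.2 ⟨hw.1, h2⟩, ?_, fun ξ hξ => ?_⟩
      · change ω ^ ρ p.1 + len w' = α
        rw [h3, h0]
      · change cat (ω ^ ρ p.1) (sft p.2 (b p.1)) (ev b w') ξ =
          cat (ω ^ ρ p.1) (sft p.2 (b p.1)) (ev b w) ξ
        simp only [cat]
        by_cases h5 : ξ < ω ^ ρ p.1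
        · simp only [h5, if_true]
        · simp only [h5, if_false]
          apply h4
          have h6 : ω ^ ρ p.1 + (ξ - ω ^ ρ p.1) = ξ := Ordinal.add_sub_cancel_of_le (not_lt.1 h5)
          rw [← h6, ← h0] at hξ
          exact lt_of_add_lt_add_left hξ

theorem exists_first {δ : W} {w : Word} (hw : w ∉ Words δ) :
    ∃ w₁ ∈ Words δ, ∃ q : W × ℕ, ∃ w₂, w = w₁ ++ q :: w₂ ∧ δ ≤ q.1 := by
  induction w with
  | nil => exact absurd (nil_mem δ) hw
  | cons p w ih =>
    by_cases h : p.1 < δ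
    · have h1 : w ∉ Words δ := fun h2 => hw (cons_mem.2 ⟨h, h2⟩)
      obtain ⟨w₁, h2, q, w₂, h3, h4⟩ := ih h1
      exact ⟨p :: w₁, cons_mem.2 ⟨h, h2⟩, q, w₂, by rw [h3]; rfl, h4⟩
    · exact ⟨[], nil_mem δ, p, w, rfl, not_lt.1 h⟩

theorem eq_zero_of_add_eq {a b : Ordinal.{0}} (h : a + b = a) : b = 0 := by
  have : a + b = a + 0 := by rw [h, add_zero]
  exact add_left_cancel this

/-- The words of length `ω ^ ρ δ`. -/
theorem len_eq_opow {δ : W} {w : Word} (h : len w = ω ^ ρ δ) :
    ∃ t ∈ Words δ, ∃ n, w = t ++ [(δ, n)] := by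
  have hw : w ∉ Words δ := fun h1 => (len_lt_opow h1).ne h
  obtain ⟨t, ht, q, w₂, rfl, hq⟩ := exists_first hw
  rw [len_append] at h
  change len t + (ω ^ ρ q.1 + len w₂) = _ at h
  have h1 : ω ^ ρ δ ≤ ω ^ ρ q.1 := Ordinal.opow_le_opow_right omega0_pos (ρ_le_ρ.2 hq)
  have h2 : len t + ω ^ ρ q.1 = ω ^ ρ q.1 :=
    (Ordinal.isPrincipal_add_iff_add_left_eq_self.1 (Ordinal.isPrincipal_add_omega0_opow _)) _
      ((len_lt_opow ht).trans_le h1)
  rw [← add_assoc, h2] at h
  have h3 : ω ^ ρ q.1 ≤ ω ^ ρ δ := by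
    rw [← h]
    exact le_self_add
  have h4 : ω ^ ρ q.1 = ω ^ ρ δ := le_antisymm h3 h1
  have h5 : q.1 = δ := by
    apply ρ_inj
    apply le_antisymm
    · exact (Ordinal.opow_le_opow_iff_right one_lt_omega0).1 h3
    · exact ρ_le_ρ.2 hq
  rw [h4] at h
  have h6 : len w₂ = 0 := eq_zero_of_add_eq h
  have h7 : w₂ = [] := by
    cases w₂ with
    | nil => rfl
    | cons r w₃ =>
      exfalso
      change ω ^ ρ r.1 + len w₃ = 0 at h6
      have : 0 < ω ^ ρ r.1 := Ordinal.opow_pos _ omega0_pos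
      have h8 : ω ^ ρ r.1 ≤ 0 := by
        rw [← h6]
        exact le_self_add
      exact absurd this (not_lt.2 h8)
  refine ⟨t, ht, q.2, ?_⟩
  rw [h7]
  have : q = (δ, q.2) := by rw [← h5]
  rw [← this]

end Pool.Agent.H635.Dia
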